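import Pool.Agent.H37.CND.Stmts

/-!
# Row UMW of the board `cnd`: `b` is a depth function on `ram 1`
-/

set_option autoImplicit false

namespace Pool.CND

open Finset

theorem umw_thm (hRAM : S_RAM) (_hLON : S_LON) (hINJ : S_INJ) : S_UMW := by
  intro k L G _ _ _ _ P ρ W hρ hW
  have hmem : ∀ g ∈ W, Fixes P (ρ g) ∧ (ρ g = 1 ∨ (1 : ℤ) ≤ P.b (ρ g)) := by
    intro g hg
    have h1 : g ∈ ram P ρ 1 := by
      rw [← hW]
      exact hg
    have h2 := (hRAM k L G P ρ g 1 le_rfl).1 h1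
    exact_mod_cast h2
  have hne : ∀ g : G, g ≠ 1 → ρ g ≠ 1 := by
    intro g hg h
    apply hg
    apply hρ
    rw [h, map_one]
  have hpi : ∀ g ∈ W, g ≠ 1 → ρ g P.pi - P.pi ≠ 0 := by
    intro g hg hg1 h
    exact hne g hg1 (hINJ k L P (ρ g) P.pi (hmem g hg).1 P.pi_ne P.ord_pi (sub_eq_zero.1 h))
  refine ⟨?_, ?_, ?_⟩
  · intro g hg hg1
    exact (hmem g hg).2.resolve_left (hne g hg1)
  · intro g hg hg1
    have h1 := hpi g hg hg1
    have h2 : ρ g⁻¹ P.pi - P.pi = -((ρ g)⁻¹ (ρ g P.pi - P.pi)) := by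
      rw [map_inv, map_sub, ← AlgEquiv.mul_apply, inv_mul_cancel, AlgEquiv.one_apply]
      ring
    change P.ord (ρ g⁻¹ P.pi - P.pi) - 1 = P.ord (ρ g P.pi - P.pi) - 1
    rw [h2, P.ord_neg, (hmem g hg).1.inv _ h1]
  · intro g hg g' hg' hg1 hg1' hgg
    have h1 := hpi g hg hg1
    have h2 := hpi g' hg' hg1'
    have h3 := hpi (g * g') (W.mul_mem hg hg') hgg
    have h4 : ρ (g * g') P.pi - P.pi = ρ g (ρ g' P.pi - P.pi) + (ρ g P.pi - P.pi) := by
      rw [map_mul, AlgEquiv.mul_apply, map_sub]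
      ring
    have h5 : ρ g (ρ g' P.pi - P.pi) ≠ 0 := by
      intro h
      exact h2 ((map_eq_zero_iff _ (ρ g).injective).1 h)
    change min (P.ord (ρ g P.pi - P.pi) - 1) (P.ord (ρ g' P.pi - P.pi) - 1)
      ≤ P.ord (ρ (g * g') P.pi - P.pi) - 1
    rw [h4] at h3 ⊢
    have h6 := P.ord_add _ _ h5 h1 h3
    rw [(hmem g hg).1 _ h2] at h6
    rcases min_le_iff.1 h6 with h | h
    · exact min_le_iff.2 (Or.inr (by omega))
    · exact min_le_iff.2 (Or.inl (by omega))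

end Pool.CND
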